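import Pool.Agent.H50.RO.Fin

/-!
# A local theorem for reductive operators: almost invariant parts of operators with resolvent growth at a curve

Let `T` be a reductive operator on a Hilbert space `H` (each closed invariant subspace of `T` is
invariant under the adjoint), `q` a nonconstant polynomial, `X` a Banach space, `J : H → X` and
`P : X → H` bounded with `P J = 1`, and `S` an operator on `X` whose resolvent, inside an open set `U`,
grows at most like a power of the distance to a rectifiable curve `E`. Nothing is assumed outside `U`.
Suppose that the approximation numbers of `S J - J q(T)` are `O (m ^ (-ε))` for some `ε > 0` (for example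
`q(T) = S + K` with `K` in a Schatten class, if `X = H` and `J = P = 1`).

Then `T` is normal on the orthogonal complement of the closed span of all closed hyperinvariant subspaces
`V` of `T` such that the spectrum of `q(T)` on `V` does not meet `U`. (All hyperinvariant subspaces of a
reductive operator are reducing.) In particular `T` is normal if the spectrum of `q(T)` is contained in
`U`, and a reductive operator without normal direct summands is, for each such `S` and `U`, generated by
hyperinvariant direct summands with spectrum of `q(T)` off `U`.

The starting library has the case of Schatten class (or polynomially approximable) perturbations of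
*normal* operators `S` with spectrum on the curve, and the case of general `S` on a *Hilbert* space
with `U = ℂ` under the additional hypothesis that `T* T - T T*` is *compact*. That hypothesis made it
possible to work with the self-commutator; here it is removed, `X` is a Banach space, and all is local.

Proof. On the part without eigenvectors each hyperinvariant subspace has nontrivial hyperinvariant
subspaces (`MP_f981b0_an.AlmostInvariantParts`), so the norm of an operator `B` in the bicommutant of `T`
is its essential norm; modulo compact operators the resolvent of `A = q(T)` is `P (z - S)⁻¹ J`, hence it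
grows at most polynomially at `E` inside `U`. Let `K` be a compact subset of `U` and `P_K` the projection
onto the closed span of the vectors with local spectrum of `A` in `K`. For a reductive `T` these
projections lie in the bicommutant of `T`, `A` and all the `P_K` commute, and the local spectrum of
`x - P_K x` avoids the interior of `K` (this needs the integrability of the logarithm of the resolvent).
So the vectors with compact local spectrum in `U` span a hyperinvariant subspace `M`, on its complement
`p - A` is onto for each `p` in `U`, and the same holds for the adjoint. By the assumption `M` is the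
whole space, and the theorem of the library about the polynomially bounded local resolvents on small
squares shows that `A` is normal. Finally a reductive operator without eigenvectors with normal `q(T)` is
normal.
-/

set_option autoImplicit false

open Filter Topology Metric Polynomial

namespace Pool.Agent.Results.MP_49c4d9_an.ReductiveAlmostParts

section Defs

variable {X : Type} [NormedAddCommGroup X] [NormedSpace ℂ X]
variable {H : Type} [NormedAddCommGroup H] [InnerProductSpace ℂ H] [CompleteSpace H]

/-- Each closed invariant subspace of `T` is invariant under the adjoint of `T`. -/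
def IsReductive (T : H →L[ℂ] H) : Prop :=
  ∀ V : Submodule ℂ H, IsClosed (V : Set H) → (∀ x ∈ V, T x ∈ V) →
    ∀ x ∈ V, ContinuousLinearMap.adjoint T x ∈ V

/-- The closed subspace `V` is invariant under every bounded operator commuting with `T`. -/
def Hyperinvariant (T : H →L[ℂ] H) (V : Submodule ℂ H) : Prop :=
  IsClosed (V : Set H) ∧ ∀ Q : H →L[ℂ] H, Q * T = T * Q → ∀ x ∈ V, Q x ∈ V

/-- The closed subspace `V` is hyperinvariant for `T` and the spectrum of the restriction of `q(T)` to
`V` does not meet `U`. -/
def SpectrumOff (T : H →L[ℂ] H) (q : ℂ[X]) (U : Set ℂ) (V : Submodule ℂ H) : Prop :=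
  Hyperinvariant T V ∧ ∃ hV : ∀ x ∈ V, T x ∈ V,
    ∀ p ∈ spectrum ℂ (aeval (T.restrict hV) q), p ∉ U

/-- The orthogonal complement of the closed span of the closed hyperinvariant subspaces of `T` on which
the spectrum of `q(T)` does not meet `U`. -/
noncomputable def PartOn (T : H →L[ℂ] H) (q : ℂ[X]) (U : Set ℂ) : Submodule ℂ H :=
  (sSup {V | SpectrumOff T q U V})ᗮ

/-- `W` and its orthogonal complement are hyperinvariant subspaces of `T`, and `T` is normal on `W`. -/
def NormalOn (T : H →L[ℂ] H) (W : Submodule ℂ H) : Prop :=
  Hyperinvariant T W ∧ Hyperinvariant T Wᗮ ∧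
    ∀ x ∈ W, ContinuousLinearMap.adjoint T (T x) = T (ContinuousLinearMap.adjoint T x)

/-- `E` is a rectifiable curve: the image of `[0,1]` under a Lipschitz map. -/
def RectifiableCurve (E : Set ℂ) : Prop :=
  ∃ (γ : ℝ → ℂ) (L : NNReal), LipschitzWith L γ ∧ E = γ '' Set.Icc 0 1

/-- Every point of `U` has a neighbourhood in which, off `E`, the resolvent of `S` exists and is at most
a constant times a power of `1 / dist (z, E)`. -/
def Tame (S : X →L[ℂ] X) (E U : Set ℂ) : Prop :=
  ∀ p ∈ U, ∃ r : ℝ, 0 < r ∧ ∃ (C : ℝ) (k : ℕ), ∀ z ∈ ball p r, z ∉ E →
    z ∈ resolventSet ℂ S ∧ ‖resolvent S z‖ ≤ C / infDist z E ^ k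

/-- The approximation numbers of `D` are `O (m ^ (-ε))` for some `ε > 0`: for all `m ≥ 1` there is an
operator `G` of rank at most `m` with `‖D - G‖ ≤ C / m ^ ε`. -/
def PolynomialDecay (D : H →L[ℂ] X) : Prop :=
  ∃ C ε : ℝ, 0 < ε ∧ ∀ m : ℕ, 1 ≤ m → ∃ G : H →L[ℂ] X,
    FiniteDimensional ℂ (LinearMap.range (G : H →ₗ[ℂ] X)) ∧
    Module.finrank ℂ (LinearMap.range (G : H →ₗ[ℂ] X)) ≤ m ∧ ‖D - G‖ ≤ C / (m : ℝ) ^ ε

/-- `A` is an almost invariant part of `S`: there are `J : H → X`, `P : X → H` with `P J = 1` such that
the approximation numbers of `S J - J A` decay polynomially. -/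
def AlmostInvariantPart (S : X →L[ℂ] X) (A : H →L[ℂ] H) : Prop :=
  ∃ (J : H →L[ℂ] X) (P : X →L[ℂ] H), (∀ y, P (J y) = y) ∧ PolynomialDecay (S.comp J - J.comp A)

end Defs

/-- **A local theorem for reductive operators.** Let `E` be a rectifiable curve, `U` an open set, `T` a
reductive operator on a Hilbert space, `q` a nonconstant polynomial and `q(T)` an almost invariant part
of an operator `S` on a Banach space with polynomial resolvent growth at `E` inside `U`. Then `T` is
normal on the orthogonal complement of the closed span of its hyperinvariant subspaces on which the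
spectrum of `q(T)` does not meet `U`. In particular, if the spectrum of `q(T)` is contained in `U`, then
`T` is normal. -/
theorem result (E U : Set ℂ) (hE : RectifiableCurve E) (hU : IsOpen U) (H X : Type)
    [NormedAddCommGroup H] [InnerProductSpace ℂ H] [CompleteSpace H]
    [NormedAddCommGroup X] [NormedSpace ℂ X] [CompleteSpace X] (T : H →L[ℂ] H) (q : ℂ[X])
    (S : X →L[ℂ] X) (hT : IsReductive T) (hq : 0 < q.natDegree) (hS : Tame S E U)
    (hA : AlmostInvariantPart S (aeval T q)) :
    NormalOn T (PartOn T q U) ∧ (spectrum ℂ (aeval T q) ⊆ U → IsStarNormal T) := by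
  obtain ⟨γ, L, hγ, rfl⟩ := hE
  obtain ⟨J, P, hJ, hD⟩ := hA
  have hred : Pool.Agent.W706.HIR.Reductive T := hT
  have hoff : PartOn T q U = (sSup (Pool.Agent.H50.RO.Off T q U))ᗮ := by
    unfold PartOn
    congr 2
    ext V
    constructor
    · rintro ⟨h1, h2, h3⟩
      exact ⟨h1, h3⟩
    · rintro ⟨h1, h2⟩
      exact ⟨h1, Pool.Agent.W706.HIR.Hyper.inv h1, h2⟩
  have hmain := Pool.Agent.H50.RO.main_local hγ hred hq hJ hU hS hD
  refine ⟨?_, ?_⟩
  · rw [hoff]
    have h1 := Pool.Agent.H50.RO.hyper_off hred q U
    refine ⟨h1, Pool.Agent.W706.HIR.hyper_orth hred h1, fun x hx => ?_⟩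
    exact sub_eq_zero.1 (hmain x hx)
  · intro hsp
    refine Pool.Agent.W706.HIR.isStarNormal_of_sc ?_
    ext x
    refine hmain x ?_
    rw [Pool.Agent.H50.RO.off_trivial hred hsp]
    trivial

end Pool.Agent.Results.MP_49c4d9_an.ReductiveAlmostParts
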