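import Pool.Agent.H50.WC.Rep
import Pool.Agent.H50.RO.Fin

/-!
# Reductive operators related to perturbed block Toeplitz operators

`Y` is a Banach space with a shift pair: operators `S` (forward shift), `B` (backward shift) with
`B S = 1`, `1 - S B` of finite rank and bounded powers, and with a representation `π` of the `n × n`
matrices which commutes with `S` and `B`. Examples: `ℓ^p(ℕ; ℂ^n)`, `1 ≤ p ≤ ∞`, `c₀(ℕ; ℂ^n)`, the Hardy
spaces `H^p(ℂ^n)`, `1 < p < ∞`; the full spaces `ℓ^p(ℤ; ℂ^n)`, `L^p(ℂ^n)` on the circle, folded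
to half lines, are examples as well, so that singular integral operators `a P + b Q` with matrix
coefficients are included.

Let `Φ` be a matrix valued function on the circle whose entries are Hölder continuous with an exponent
`α > 1/2`, and suppose that inside an open set `V` the eigenvalues of the matrices `Φ(t)` lie on a
rectifiable curve `Γ`. Let `T` be a reductive operator on a Hilbert space `H` and `q` a nonconstant
polynomial, such that `T_Φ J - J q(T)` has approximation numbers `O (m ^ (-ε))` for a bounded `J : H → Y`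
with a bounded left inverse. Examples: `H = Y = H²(ℂ^n)` and `q(T) = T_Φ + K` with `K` in a Schatten
class; or `q(T)` similar to such an operator, or to its restriction to a closed invariant subspace, or
to a direct summand of such an operator on some `ℓ^p`.

Then `T` is normal on the orthogonal complement of the closed span of all hyperinvariant subspaces on
which the spectrum of `q(T)` does not meet `V`, and `T` is normal if the spectrum of `q(T)` is contained
in `V`. In particular all reductive operators `T_Φ + K`, `K` in a Schatten class, are normal if the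
eigenvalues of the values of the symbol lie on a rectifiable curve.

For scalar symbols and `T = T_φ` without perturbation, on a Hilbert space, this is in the starting
library, where the compactness of the self-commutator of `T_φ` is used. For matrix symbols the
self-commutator of `T_Φ` is not compact in general, even if all eigenvalues are real.

Proof. `T_Φ` is an almost invariant part of the block Laurent operator `L_Φ` on a larger Banach space,
whose resolvent grows polynomially at `Γ` inside `V` (`MP_f981b0_an.BlockToeplitzOperators`); then the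
local theorem for reductive operators (`MP_49c4d9_an.ReductiveAlmostParts`) applies.
-/

set_option autoImplicit false

open Filter Topology Metric Polynomial
open scoped NNReal

noncomputable section

namespace Pool.Agent.Results.MP_49c4d9_an.ReductiveBlockToeplitz

section Defs

variable {Y : Type} [NormedAddCommGroup Y] [NormedSpace ℂ Y]
variable {H : Type} [NormedAddCommGroup H] [InnerProductSpace ℂ H] [CompleteSpace H]

/-- Each closed invariant subspace of `T` is invariant under the adjoint of `T`. -/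
def IsReductive (T : H →L[ℂ] H) : Prop :=
  ∀ V : Submodule ℂ H, IsClosed (V : Set H) → (∀ x ∈ V, T x ∈ V) →
    ∀ x ∈ V, ContinuousLinearMap.adjoint T x ∈ V

/-- The closed subspace `V` is invariant under every bounded operator commuting with `T`. -/
def Hyperinvariant (T : H →L[ℂ] H) (V : Submodule ℂ H) : Prop :=
  IsClosed (V : Set H) ∧ ∀ Q : H →L[ℂ] H, Q * T = T * Q → ∀ x ∈ V, Q x ∈ V

/-- The closed subspace `V` is hyperinvariant for `T` and the spectrum of the restriction of `q(T)` to
`V` does not meet `U`. -/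
def SpectrumOff (T : H →L[ℂ] H) (q : ℂ[X]) (U : Set ℂ) (V : Submodule ℂ H) : Prop :=
  Hyperinvariant T V ∧ ∃ hV : ∀ x ∈ V, T x ∈ V,
    ∀ p ∈ spectrum ℂ (aeval (T.restrict hV) q), p ∉ U

/-- The orthogonal complement of the closed span of the closed hyperinvariant subspaces of `T` on which
the spectrum of `q(T)` does not meet `U`. -/
def PartOn (T : H →L[ℂ] H) (q : ℂ[X]) (U : Set ℂ) : Submodule ℂ H :=
  (sSup {V | SpectrumOff T q U V})ᗮ

/-- `W` and its orthogonal complement are hyperinvariant subspaces of `T`, and `T` is normal on `W`. -/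
def NormalOn (T : H →L[ℂ] H) (W : Submodule ℂ H) : Prop :=
  Hyperinvariant T W ∧ Hyperinvariant T Wᗮ ∧
    ∀ x ∈ W, ContinuousLinearMap.adjoint T (T x) = T (ContinuousLinearMap.adjoint T x)

/-- `E` is a rectifiable curve: the image of `[0,1]` under a Lipschitz map. -/
def RectifiableCurve (E : Set ℂ) : Prop :=
  ∃ (γ : ℝ → ℂ) (L : NNReal), LipschitzWith L γ ∧ E = γ '' Set.Icc 0 1

/-- The approximation numbers of `D` are `O (m ^ (-ε))` for some `ε > 0`: for all `m ≥ 1` there is an
operator `G` of rank at most `m` with `‖D - G‖ ≤ C / m ^ ε`. -/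
def PolynomialDecay (D : H →L[ℂ] Y) : Prop :=
  ∃ C ε : ℝ, 0 < ε ∧ ∀ m : ℕ, 1 ≤ m → ∃ G : H →L[ℂ] Y,
    FiniteDimensional ℂ (LinearMap.range (G : H →ₗ[ℂ] Y)) ∧
    Module.finrank ℂ (LinearMap.range (G : H →ₗ[ℂ] Y)) ≤ m ∧ ‖D - G‖ ≤ C / (m : ℝ) ^ ε

/-- `A` is an almost invariant part of `R`: there are `J : H → Y`, `P : Y → H` with `P J = 1` such that
the approximation numbers of `R J - J A` decay polynomially. -/
def AlmostInvariantPart (R : Y →L[ℂ] Y) (A : H →L[ℂ] H) : Prop :=
  ∃ (J : H →L[ℂ] Y) (P : Y →L[ℂ] H), (∀ y, P (J y) = y) ∧ PolynomialDecay (R.comp J - J.comp A)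

/-- `S` (forward) and `B` (backward) are a shift pair: `B S = 1`, `1 - S B` has finite rank, and the
powers of `S` and `B` are bounded. -/
structure ShiftPair (S B : Y →L[ℂ] Y) : Prop where
  left_inverse : B * S = 1
  finite_rank : FiniteDimensional ℂ (LinearMap.range ((1 - S * B : Y →L[ℂ] Y) : Y →ₗ[ℂ] Y))
  power_bounded : ∃ M : ℝ, ∀ n : ℕ, ‖S ^ n‖ ≤ M ∧ ‖B ^ n‖ ≤ M

/-- The Toeplitz operator `∑_{n ≥ 0} f̂(n) S ^ n + ∑_{n ≥ 1} f̂(-n) B ^ n` of a scalar function `f` on
the circle. -/
def scalarToeplitz (S B : Y →L[ℂ] Y) (f : UnitAddCircle → ℂ) : Y →L[ℂ] Y :=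
  (∑' n : ℕ, fourierCoeff f (n : ℤ) • S ^ n) +
    ∑' n : ℕ, fourierCoeff f (-((n : ℤ) + 1)) • B ^ (n + 1)

/-- The block Toeplitz operator with the symbol `Φ`, where the representation `π` of the matrices
describes the action of the coefficients. -/
def blockToeplitz {ι : Type} [Fintype ι] [DecidableEq ι] (S B : Y →L[ℂ] Y)
    (π : Matrix ι ι ℂ →ₐ[ℂ] (Y →L[ℂ] Y)) (Φ : UnitAddCircle → Matrix ι ι ℂ) : Y →L[ℂ] Y :=
  ∑ i, ∑ j, π (Matrix.single i j 1) * scalarToeplitz S B (fun t => Φ t i j)

/-- The entries of `Φ` are Hölder continuous with an exponent greater than one half. -/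
def HolderSymbol {ι : Type} (Φ : UnitAddCircle → Matrix ι ι ℂ) : Prop :=
  ∃ C α : ℝ≥0, 1 / 2 < α ∧ ∀ i j, HolderWith C α fun t => Φ t i j

end Defs

/-- **Reductive operators related to block Toeplitz operators are normal.** -/
theorem result (Y H : Type) [NormedAddCommGroup Y] [NormedSpace ℂ Y] [CompleteSpace Y]
    [NormedAddCommGroup H] [InnerProductSpace ℂ H] [CompleteSpace H]
    -- the shifts and the coefficients
    (S B : Y →L[ℂ] Y) (hSB : ShiftPair S B) (ι : Type) [Fintype ι] [DecidableEq ι]
    (π : Matrix ι ι ℂ →ₐ[ℂ] (Y →L[ℂ] Y)) (hπ : ∀ a, π a * S = S * π a ∧ π a * B = B * π a)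
    -- the symbol; inside `V` the eigenvalues of its values lie on a rectifiable curve
    (Φ : UnitAddCircle → Matrix ι ι ℂ) (hΦ : HolderSymbol Φ) (Γ V : Set ℂ)
    (hΓ : RectifiableCurve Γ) (hV : IsOpen V) (hev : ∀ t, spectrum ℂ (Φ t) ∩ V ⊆ Γ)
    -- the reductive operator
    (T : H →L[ℂ] H) (hT : IsReductive T) (q : ℂ[X]) (hq : 0 < q.natDegree)
    (hA : AlmostInvariantPart (blockToeplitz S B π Φ) (aeval T q)) :
    NormalOn T (PartOn T q V) ∧ (spectrum ℂ (aeval T q) ⊆ V → IsStarNormal T) := by
  obtain ⟨γ, L, hγ, rfl⟩ := hΓ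
  obtain ⟨C, α, hα, hH⟩ := hΦ
  obtain ⟨J₀, P₀, h0, hD₀⟩ := hA
  obtain ⟨X, i1, i2, i3, Λ, J, P, hJ, ht, hD⟩ := Pool.Agent.H50.WC.one_part S B
    hSB.left_inverse hSB.finite_rank hSB.power_bounded π hπ Φ C α hα hH γ L hγ V hV
    (fun t w hw hwV => hev t ⟨Matrix.mem_spectrum_iff_isRoot_charpoly.2 hw, hwV⟩)
    (aeval T q) J₀ P₀ h0 hD₀
  have hred : Pool.Agent.W706.HIR.Reductive T := hT
  have hoff : PartOn T q V = (sSup (Pool.Agent.H50.RO.Off T q V))ᗮ := by
    unfold PartOn
    congr 2
    ext W
    constructor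
    · rintro ⟨h1, h2, h3⟩
      exact ⟨h1, h3⟩
    · rintro ⟨h1, h2⟩
      exact ⟨h1, Pool.Agent.W706.HIR.Hyper.inv h1, h2⟩
  have hmain := Pool.Agent.H50.RO.main_local hγ hred hq hJ hV ht hD
  refine ⟨?_, ?_⟩
  · rw [hoff]
    have h1 := Pool.Agent.H50.RO.hyper_off hred q V
    refine ⟨h1, Pool.Agent.W706.HIR.hyper_orth hred h1, fun x hx => ?_⟩
    exact sub_eq_zero.1 (hmain x hx)
  · intro hsp
    refine Pool.Agent.W706.HIR.isStarNormal_of_sc ?_
    ext x
    refine hmain x ?_
    rw [Pool.Agent.H50.RO.off_trivial hred hsp]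
    trivial

end Pool.Agent.Results.MP_49c4d9_an.ReductiveBlockToeplitz
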