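import Pool.Agent.H50.SM.Rds

/-!
# MP_49c4d9_an: reductive direct summands of trace class perturbations of normal operators are normal

Let `T` be a reductive operator on a Hilbert space. If `T ⊕ T'` is unitarily equivalent to `N + K`, with
`N` normal and `K` of trace class, for some operator `T'` on some Hilbert space, then `T` is normal.
Nothing is assumed on `T'` (in particular `T ⊕ T'` need not be reductive), on `N`, on `K` or on the
spectra. In particular: if `N` is normal and the orthogonal projection onto a closed subspace `M` commutes
with `N` up to a trace class operator, then every reductive trace class perturbation of the compression of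
`N` to `M` is normal.

The library has the case where `N + K` itself is reductive (`ReductiveTraceClass`); there the proof uses
that the projections onto hyperinvariant subspaces of a reductive operator `N + K` leave invariant all
its closed invariant subspaces, which fails here. A direct summand of `N + K` is in general not a trace
class perturbation of a normal operator (for instance the unilateral shift is not).

Proof. `T` has a compact self-commutator. If it is not zero, take a reducing subspace `V` which meets an
eigenspace (for an eigenvalue different from zero) of the self-commutator in a subspace of minimal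
dimension, and which is generated by a vector of this intersection. `V` is irreducible, and `T` is
reductive, so the restriction `T|V` has no nontrivial closed invariant subspace, and it is not scalar. But
`T|V` is again a direct summand of `N + K`, so it has a nontrivial closed invariant subspace by the
theorem `MP_f981b0_an.DirectSummands` (there is the proof: Thomson's scheme for the generalised kernels
`ker (1 - F(z))`, `F(z)` the matrix of Cauchy transforms of `K`).

Modules: IRR helper57, RDS and the plan helper50; for the other modules see
`MP_f981b0_an.DirectSummands` (helpers 57, 64, 75, 40, 82, 58, 11, 50). The library projects TC and TR are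
by helper130 and others; `Y283.NK`, `W706.HIR` belong to the starting library.
-/

set_option autoImplicit false

open scoped InnerProductSpace

namespace Pool.Agent.Results.MP_49c4d9_an.ReductiveDirectSummands

section Defs

variable {E H : Type} [NormedAddCommGroup E] [InnerProductSpace ℂ E] [CompleteSpace E]
  [NormedAddCommGroup H] [InnerProductSpace ℂ H] [CompleteSpace H]

/-- Every closed invariant subspace of `T` is invariant under the adjoint. -/
def IsReductive (T : E →L[ℂ] E) : Prop :=
  ∀ V : Submodule ℂ E, IsClosed (V : Set E) → (∀ x ∈ V, T x ∈ V) →
    ∀ x ∈ V, ContinuousLinearMap.adjoint T x ∈ V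

/-- `K` is of trace class: `K f = ∑ ⟪v j, f⟫ u j` with `∑ ‖u j‖² < ∞` and `∑ ‖v j‖² < ∞`. -/
def TraceClass (K : H →L[ℂ] H) : Prop :=
  ∃ u v : ℕ → H, Summable (fun j => ‖u j‖ ^ 2) ∧ Summable (fun j => ‖v j‖ ^ 2) ∧
    ∀ f, HasSum (fun j => ⟪v j, f⟫_ℂ • u j) (K f)

/-- `A = N + K` with `N` normal and `K` of trace class. -/
def NormalPlusTraceClass (A : H →L[ℂ] H) : Prop :=
  ∃ N K : H →L[ℂ] H, IsStarNormal N ∧ TraceClass K ∧ A = N + K

/-- `T` is unitarily equivalent to the restriction of `A` to a reducing subspace (an orthogonal direct
summand of `A`): there is a linear isometry `J : E → H` with `A J = J T` and `A† J = J T†`. -/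
def IsOrthogonalSummand (T : E →L[ℂ] E) (A : H →L[ℂ] H) : Prop :=
  ∃ J : E →ₗᵢ[ℂ] H, (∀ x, A (J x) = J (T x)) ∧
    ∀ x, ContinuousLinearMap.adjoint A (J x) = J (ContinuousLinearMap.adjoint T x)

/-- `T` is the compression of `N + K` to the closed subspace `M`, with `N` normal, `K` of trace class,
and the projection onto `M` commutes with `N` up to a trace class operator. -/
def IsCompression (M : Submodule ℂ H) [M.HasOrthogonalProjection] (T : M →L[ℂ] M) : Prop :=
  ∃ N K : H →L[ℂ] H, IsStarNormal N ∧ TraceClass K ∧
    TraceClass (N * M.starProjection - M.starProjection * N) ∧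
    ∀ x : M, ((T x : M) : H) = M.starProjection ((N + K) x)

end Defs

/-- **Reductive direct summands of trace class perturbations of normal operators are normal.** Let `T` be
reductive. (1) If `T` is an orthogonal direct summand of `N + K`, `N` normal and `K` of trace class, then
`T` is normal. (2) If `T` is the compression of `N + K` to a closed subspace whose projection commutes
with `N` up to a trace class operator, then `T` is normal. -/
theorem result :
    (∀ (E H : Type) [NormedAddCommGroup E] [InnerProductSpace ℂ E] [CompleteSpace E]
      [NormedAddCommGroup H] [InnerProductSpace ℂ H] [CompleteSpace H]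
      (T : E →L[ℂ] E) (A : H →L[ℂ] H), IsReductive T → NormalPlusTraceClass A →
      IsOrthogonalSummand T A → IsStarNormal T) ∧
    ∀ (H : Type) [NormedAddCommGroup H] [InnerProductSpace ℂ H] [CompleteSpace H]
      (M : Submodule ℂ H) [M.HasOrthogonalProjection] [CompleteSpace M] (T : M →L[ℂ] M),
      IsReductive T → IsCompression M T → IsStarNormal T := by
  refine ⟨?_, ?_⟩
  · rintro E H _ _ _ _ _ _ T A hred ⟨N, K, hN, ⟨u, v, hu, hv, huv⟩, rfl⟩ ⟨J, h1, h2⟩
    exact Pool.Agent.H50.SM.RDS.rds T N K hN u v ⟨hu, hv, huv⟩ J h1 h2 hred
  · rintro H _ _ _ M _ _ T hred ⟨N, K, hN, ⟨u, v, hu, hv, huv⟩, ⟨u', v', hu', hv', huv'⟩, hT⟩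
    have hQQ : M.starProjection * M.starProjection = M.starProjection := by
      ext y
      exact Submodule.starProjection_eq_self_iff.2 (M.starProjection_apply_mem y)
    obtain ⟨K', ⟨p, q, hpq⟩, g1, g2⟩ := Pool.Agent.H50.SM.compr N K M.starProjection
      (u := u) (v := v) ⟨hu, hv, huv⟩ hQQ (u' := u') (v' := v') ⟨hu', hv', huv'⟩
    have hx : ∀ x : M, M.starProjection (x : H) = x := fun x =>
      Submodule.starProjection_eq_self_iff.2 x.2
    have e1 : ∀ x : M, (N + K') (x : H) = ((T x : M) : H) := by
      intro x
      rw [hT]
      have h5 := congrArg (fun A : H →L[ℂ] H => A x) g2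
      have h6 : (N + K') (M.starProjection (x : H)) =
          M.starProjection ((N + K) (M.starProjection (x : H))) := h5
      rwa [hx] at h6
    have hsa : ContinuousLinearMap.adjoint M.starProjection = M.starProjection :=
      M.starProjection_isSymmetric.isSelfAdjoint
    have g3 : M.starProjection * ContinuousLinearMap.adjoint (N + K') =
        ContinuousLinearMap.adjoint (N + K') * M.starProjection := by
      have h5 := congrArg (fun A => ContinuousLinearMap.adjoint A) g1
      simp only [← ContinuousLinearMap.star_eq_adjoint, star_mul] at h5 hsa ⊢
      rw [hsa] at h5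
      exact h5.symm
    refine Pool.Agent.H50.SM.RDS.rds T N K' hN p q hpq M.subtypeₗᵢ (fun x => e1 x)
      (fun x => ?_) hred
    -- the adjoint
    have h6 : M.starProjection (ContinuousLinearMap.adjoint (N + K') (x : H)) =
        ContinuousLinearMap.adjoint (N + K') (x : H) := by
      have h7 := congrArg (fun A : H →L[ℂ] H => A x) g3
      have h8 : M.starProjection (ContinuousLinearMap.adjoint (N + K') (x : H)) =
          ContinuousLinearMap.adjoint (N + K') (M.starProjection (x : H)) := h7
      rwa [hx] at h8
    have h9 : ContinuousLinearMap.adjoint (N + K') (x : H) ∈ M := by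
      rw [← h6]
      exact M.starProjection_apply_mem _
    have h10 : (⟨ContinuousLinearMap.adjoint (N + K') (x : H), h9⟩ : M) =
        ContinuousLinearMap.adjoint T x := by
      refine ext_inner_right ℂ fun y => ?_
      rw [ContinuousLinearMap.adjoint_inner_left]
      show ⟪ContinuousLinearMap.adjoint (N + K') (x : H), (y : H)⟫_ℂ = ⟪(x : H), ((T y : M) : H)⟫_ℂ
      rw [ContinuousLinearMap.adjoint_inner_left, e1]
    exact congrArg (fun z : M => (z : H)) h10

end Pool.Agent.Results.MP_49c4d9_an.ReductiveDirectSummands
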