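import Pool.Agent.H64.RX.Nml

/-!
# MP_49c4d9_an: reductive trace class perturbations of subnormal operators are normal

Let `S` be a subnormal operator and `K` a trace class operator on a complex Hilbert space. If `S + K` is
reductive, then `S` and `S + K` are normal. There is no further condition on `S`, `K` or the spectrum. For
`S` normal this is the theorem of the starting library (`ReductiveTraceClass`); for `K = 0` it is the
classical consequence of S. Brown's theorem. So no trace class perturbation of a subnormal operator which
is not normal is reductive.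

The self-commutator of `S + K` is in general not compact, and the restriction of `S + K` to an invariant
subspace is in general not a trace class perturbation of a subnormal operator, so the theorem does not
follow from the existence of invariant subspaces (`MP_f981b0_an.SubnormalPlusTraceClass`) by the usual
reductions.

Proof. Notation of `MP_f981b0_an.SubnormalPlusTraceClass`: `N` the multiplication by `φ` on `L²(μ)`,
`N M ⊆ M`, `T = N + K`, `K = ∑ u_j ⊗ v_j` with `u_j`, `v_j` in `M`, `C = T|M = S + K`, `g_i` total in the
orthogonal complement of `M`, `F(z)`, `G(z)` the matrices of Cauchy transforms, `Λ` the functionals on `M`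
with `Λ(p(C) f) = p(z) Λ(f)`. We may assume that the space is separable.

(1) Let `c(z)` be a bounded measurable field with `F c = c`, `G c = 0`, and `d(z)` one with `Fᵗ d = d`; for
bounded densities `g`, `h` put `X_g = ∫ g(z) (z - N)⁻¹ ∑ c_j(z) u_j dA(z)` and let `Y_h` be the
projection to `M` of the corresponding integral for `d`, `T†`. Then `C X_g = X_{zg}`,
`C† Y_h = Y_{z̄h}`. Claim: `⟪Y_h, A X_g⟫ = 0` for every operator `A` commuting with `C`. Divide the plane
into squares `Q` of side `1 / n`. The terms `⟪Y_{h 1_Q}, A X_{g 1_R}⟫` with `Q`, `R` not adjacent vanish (chains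
of `C` and `C†` for disjoint discs), and `∑ ‖X_{g 1_Q}‖² ≤ c / n`, `∑ ‖Y_{h 1_Q}‖² ≤ c / n` by the inequality
of Cauchy and Schwarz and `∫_Q 1 / |z - w| dA ≤ c / n`. So the sum is at most `c / n`.

(2) If `C` is reductive then `F c = c`, `G c = 0` implies `c = 0` for almost all `z`. Otherwise let `x = X_g`,
`y = Y_h`, with `⟪u, C^k x⟫ = ∫ z^k ω = ⟪y, C^k v⟫` for suitable `u`, `v` in `M`, `ω ≥ 0`, `∫ ω > 0`. The closed
span `V'` of the `A x`, `A` in the commutant, is orthogonal to `y` and reduces `C`, `P` its projection. Let
`f = x + (1 - P) v`, `y₀ = P u - y`. Then `y₀` is orthogonal to the cyclic subspace `W` of `f`. `W` reduces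
`C`, so its projection commutes with `C` and therefore with `P`. So `x = P f` is in `W`, and
`0 = ⟪y₀, x⟫ = ∫ ω`, a contradiction.

(3) So at almost every `z` the solutions `(d, e)` of `d = Fᵗ d + Gᵗ e` persist, and by Thomson's scheme, at
almost every point `a`, either `Λ(x) = 0` for all solutions or `|p(a)| ≤ C ‖p(C) x‖` for all
polynomials `p`. In the second case `a` is an eigenvalue of `C`: the closed span `V₀` of the
`(C - a) C^k x` does not contain `x`, and since `V₀` reduces `C`, the component of `x` orthogonal to `V₀` is an
eigenvector. A reductive operator on a separable space has countably many eigenvalues. So `Λ = 0` for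
almost all `z` and all solutions, and, as in `SubnormalPlusTraceClass`, `M` reduces `N`. Hence `S` is
normal, and `C` is a reductive trace class perturbation of a normal operator, and normal by the library.

Plan, statements, module EST: helper64. Modules BPE, NR2, RDN, RFN: helper50; EXC: helper52, helper22,
helper50; EVC: helper94; EXA: helper11; FAM: helper41; ORA: helper76; RNS: helper16. Projects XS and SM (helpers
64, 50, 31, 39, 41, 22, 66, 76, 94, 57, 75, 40, 82, 58, 11) and the library projects TC, TR (helper130 and
others), `W706.HIR`, `Y283.NK` are used.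
-/

set_option autoImplicit false

open scoped InnerProductSpace

namespace Pool.Agent.Results.MP_49c4d9_an.ReductiveSubnormal

section Defs

variable {H : Type} [NormedAddCommGroup H] [InnerProductSpace ℂ H]

/-- `K` is of trace class: `K f = ∑ ⟪v j, f⟫ u j` with `∑ ‖u j‖² < ∞` and `∑ ‖v j‖² < ∞`. -/
def TraceClass (K : H →L[ℂ] H) : Prop :=
  ∃ u v : ℕ → H, Summable (fun j => ‖u j‖ ^ 2) ∧ Summable (fun j => ‖v j‖ ^ 2) ∧
    ∀ f, HasSum (fun j => ⟪v j, f⟫_ℂ • u j) (K f)

/-- `S` is subnormal: it is the restriction of a normal operator `N` on a Hilbert space `L` to an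
invariant subspace (the range of a linear isometry `V`). -/
def IsSubnormal (S : H →L[ℂ] H) : Prop :=
  ∃ (L : Type) (_ : NormedAddCommGroup L) (_ : InnerProductSpace ℂ L) (_ : CompleteSpace L)
    (V : H →ₗᵢ[ℂ] L) (N : L →L[ℂ] L), IsStarNormal N ∧ ∀ x, N (V x) = V (S x)

/-- Every closed invariant subspace of `T` is invariant under the adjoint. -/
def IsReductive [CompleteSpace H] (T : H →L[ℂ] H) : Prop :=
  ∀ V : Submodule ℂ H, IsClosed (V : Set H) → (∀ x ∈ V, T x ∈ V) →
    ∀ x ∈ V, ContinuousLinearMap.adjoint T x ∈ V

end Defs

/-- **Reductive trace class perturbations of subnormal operators are normal.** Let `S` be a subnormal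
operator and `K` a trace class operator on a complex Hilbert space. If `S + K` is reductive, then `S` and
`S + K` are normal. -/
theorem result (H : Type) [NormedAddCommGroup H] [InnerProductSpace ℂ H] [CompleteSpace H]
    (S K : H →L[ℂ] H) (hS : IsSubnormal S) (hK : TraceClass K) (hT : IsReductive (S + K)) :
    IsStarNormal S ∧ IsStarNormal (S + K) := by
  obtain ⟨L, _, _, _, V, N, hN, hV⟩ := hS
  obtain ⟨u, v, hu, hv, huv⟩ := hK
  exact Pool.Agent.H64.RX.main2 H L S K N V.toContinuousLinearMap hN (fun x => V.norm_map x) hV
    u v ⟨hu, hv, huv⟩ hT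

end Pool.Agent.Results.MP_49c4d9_an.ReductiveSubnormal
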